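import Pool.Agent.H21.RH.NF

/-!
# Central values `L(π_i, R_i, 1/2)`: one law determines the joint distribution of the Euler products

Let `π_i`, `i ∈ ι`, be finitely many tempered representations (as in Q1) of groups over number fields
`K_i`, let `r_{i,v,j}`, `v ∉ S_i`, be the eigenvalues of `R_i(φ_v)`: they are in the closed unit disc,
and their power sums are real as `R_i` is symplectic. Let `F_i` be the continuation of the incomplete
`L`-function `∏_{v ∉ S_i} ∏_j (1 - r_{i,v,j} q_v^{-s})⁻¹`, holomorphic and of polynomial growth for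
`Re s > 1/2 - η`, and

`P_i(x) = exp (- ∑_{v ∉ S_i, q_v^k ≤ x} (∑_j r_{i,v,j}^k) / (k q_v^{k/2}))`.

For REAL weights `w_i` of any signs, `ρ` real and `A > 0` let
`D(x) = log (A ∏ P_i(x)^(w_i) / (e^γ log x)^ρ)`, and for one `i` let
`δ_i(x) = log (c_i P_i(x) / (e^γ log x)^(e_i))`. Let `m_i(t)` be the order of `F_i` at `1/2 + it`.

1. **Weights which are linearly independent over `ℚ`.** The following are equivalent:
   (a) every `F_i` has no zeros with `Re s > 1/2`, and the orders `e_i` and leading coefficients `c_i`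
       at `1/2` satisfy `ρ = ∑ w_i e_i`, `A = ∏ c_i^(w_i)`;
   (b) the logarithmic means of `|D|` tend to `0` (no rate);
   (c) the logarithmic mean square of `log x · D(x)` is bounded;
   (d) `log x · D(x)` has a limiting logarithmic distribution (with second moments);
   (e) the same, with mean `0`, variance `∑_t (∑_i w_i m_i(t))² / t²` and densities;
   (f) `ρ = ∑ w_i e_i`, `A = ∏ c_i^(w_i)`, and the VECTOR `(log x · δ_i(x))_i` has a joint limiting
       distribution, with means `0` and covariances `∑_t m_i(t) m_j(t) / t²`;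
   (g) `ρ = ∑ w_i e_i`, `A = ∏ c_i^(w_i)`, and ALL real powers `∏ P_i^(w'_i)` have their limit law.
2. **Arbitrary real weights**, if the `F_i` have no zeros with `Re s > 1/2`: `ρ = ∑ w_i e_i` and
   `A = ∏ c_i^(w_i)`, (b), (c), (d), (e) are equivalent.
3. **One-sided bounds.** If the `w_i` are independent over `ℚ`, `∑ w_i ord_x F_i ≥ 0` for real `x > 1/2`
   and `log x · D(x) ≤ B` for all large `x`, then no `F_i` has zeros with `Re s > 1/2`,
   `∑ w_i e_i ≤ ρ`, and `|∑ w_i m_i(t)| ≤ B |t|` for all `t ≠ 0` if `ρ = ∑ w_i e_i`, `A = ∏ c_i^(w_i)`.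
4. **All central values.** If the `w_i` are independent over `ℚ` then all central values `F_i(1/2)` are
   not zero and all `F_i` satisfy the Riemann hypothesis if and only if (b) holds for `ρ = 0` and some
   `A > 0`. Then `A = ∏ |F_i(1/2)|^(w_i)`, and for every `i` the conjecture for `π_i` says that the
   period is not zero if and only if the local (or the global) `Hom`-spaces are not zero.
-/

set_option autoImplicit false

namespace Pool.Agent.Results.MP_86aa84_nt.OneLawJointDistribution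

open MeasureTheory Filter Topology Set Complex NumberField IsDedekindDomain

section defs

variable {K : Type} [Field K] [NumberField K] {N : ℕ}

/-- The norm `q_v`. -/
noncomputable def norm (v : HeightOneSpectrum (𝓞 K)) : ℕ := Ideal.absNorm v.asIdeal

/-- For all primes `v` outside of the finite set `S` the `r_{v,j}` are in the closed unit disc and
have real power sums. -/
def SelfDual (S : Finset (HeightOneSpectrum (𝓞 K))) (r : HeightOneSpectrum (𝓞 K) → Fin N → ℂ) :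
    Prop :=
  ∀ v : HeightOneSpectrum (𝓞 K), v ∉ S → (∀ j, ‖r v j‖ ≤ 1) ∧ ∀ k : ℕ, (∑ j, r v j ^ k).im = 0

/-- `F` is a continuation of the incomplete `L`-function `∏_{v ∉ S} ∏_j (1 - r_{v,j} q_v^{-s})⁻¹`
(`Re s > 1`), holomorphic and of polynomial growth for `Re s > 1/2 - η`, for some `η > 0`. -/
def IsLSeries (S : Finset (HeightOneSpectrum (𝓞 K))) (r : HeightOneSpectrum (𝓞 K) → Fin N → ℂ)
    (F : ℂ → ℂ) : Prop :=
  (∃ (η C : ℝ) (κ : ℕ), 0 < η ∧
    ∀ s : ℂ, 1 / 2 - η < s.re → DifferentiableAt ℂ F s ∧ ‖F s‖ ≤ C * (1 + ‖s‖) ^ κ) ∧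
  ∀ s : ℂ, 1 < s.re → HasProd (fun v : {v : HeightOneSpectrum (𝓞 K) // v ∉ S} =>
    (∏ j, (1 - r v.1 j * (norm v.1 : ℂ) ^ (-s)))⁻¹) (F s)

/-- `P(x) = exp (- ∑_{v ∉ S, q_v^k ≤ x} (∑_j r_{v,j}^k) / (k q_v^{k/2}))`, the (finite) sum over the
pairs `(v, k)`, `v` a prime outside of `S`, `k = p.2 + 1 ≥ 1`, with `q_v^k ≤ x`. -/
noncomputable def product (S : Finset (HeightOneSpectrum (𝓞 K)))
    (r : HeightOneSpectrum (𝓞 K) → Fin N → ℂ) (x : ℝ) : ℝ :=
  Real.exp (-∑ᶠ (p : {v : HeightOneSpectrum (𝓞 K) // v ∉ S} × ℕ)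
    (_ : (norm p.1.1 : ℝ) ^ (p.2 + 1) ≤ x),
      (∑ j, r p.1.1 j ^ (p.2 + 1)).re / (((p.2 : ℝ) + 1) * √(norm p.1.1 : ℝ) ^ (p.2 + 1)))

/-- `δ(x) = log (c P(x) / (e^γ log x)^ρ)` -/
noncomputable def delta (S : Finset (HeightOneSpectrum (𝓞 K)))
    (r : HeightOneSpectrum (𝓞 K) → Fin N → ℂ) (ρ c x : ℝ) : ℝ :=
  Real.log (c * product S r x / (Real.exp Real.eulerMascheroniConstant * Real.log x) ^ ρ)

/-- no zeros with `Re s > 1/2` -/
def RH (F : ℂ → ℂ) : Prop := ∀ s : ℂ, 1 / 2 < s.re → F s ≠ 0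

/-- `F(s) / (s - 1/2)^e → c` for `s → 1/2`; for `c > 0` this says that `e` is the order of `F` at `1/2`
and `c` the leading coefficient -/
def IsLeading (F : ℂ → ℂ) (e : ℕ) (c : ℝ) : Prop :=
  Tendsto (fun s : ℂ => F s / (s - 1 / 2) ^ e) (𝓝[≠] (1 / 2 : ℂ)) (𝓝 (c : ℂ))

/-- the order of `F` at `1/2 + it` -/
noncomputable def mult (F : ℂ → ℂ) (t : ℝ) : ℕ := analyticOrderNatAt F (1 / 2 + t * I)

/-- the logarithmic means of `|D|` tend to `0` -/
def MeanZero (D : ℝ → ℝ) : Prop :=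
  Tendsto (fun X : ℝ => (∫ x in Real.exp 1..X, |D x| / x) / Real.log X) atTop (𝓝 0)

/-- `∫_e^X (log x · D(x))² dx/x ≤ B log X` for some `B` and all large `X` -/
def BoundedMeanSquare (D : ℝ → ℝ) : Prop := ∃ B : ℝ, ∀ᶠ X : ℝ in atTop,
  ∫ x in Real.exp 1..X, (Real.log x * D x) ^ 2 / x ≤ B * Real.log X

/-- `ν` is the limiting logarithmic distribution of `log x · D(x)`. -/
def IsLimitLaw (D : ℝ → ℝ) (ν : Measure ℝ) : Prop :=
  IsProbabilityMeasure ν ∧ ∀ φ : ℝ → ℝ, Continuous φ → (∃ B : ℝ, ∀ y, |φ y| ≤ B) →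
    Tendsto (fun X : ℝ => (∫ x in Real.exp 1..X, φ (Real.log x * D x) / x) / Real.log X) atTop
      (𝓝 (∫ y, φ y ∂ν))

/-- There is a limiting logarithmic distribution with a second moment, the limit of the mean
squares. -/
def HasLimitLaw (D : ℝ → ℝ) : Prop :=
  ∃ ν : Measure ℝ, IsLimitLaw D ν ∧ Integrable (fun y : ℝ => y ^ 2) ν ∧
    Tendsto (fun X : ℝ => (∫ x in Real.exp 1..X, (Real.log x * D x) ^ 2 / x) / Real.log X) atTop
      (𝓝 (∫ y, y ^ 2 ∂ν))

open Classical in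
/-- the logarithmic proportion of the `x` in `[e, X]` with `log x · D(x) > c` -/
noncomputable def shareAbove (D : ℝ → ℝ) (c X : ℝ) : ℝ :=
  (∫ x in Real.exp 1..X, if c < Real.log x * D x then 1 / x else 0) / Real.log X

/-- There is exactly one limiting logarithmic distribution `ν` of `log x · D(x)`; its mean is `0`, its
variance is `∑ μ(t)²/t²`, the limit of the mean squares, and `{x : log x · D(x) > c}` has the
logarithmic density `ν(c, ∞)` if `ν{c} = 0`. -/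
def LimitLaw (μ : ℝ → ℝ) (D : ℝ → ℝ) : Prop :=
  ∃ ν : Measure ℝ, (IsLimitLaw D ν ∧ ∀ ν' : Measure ℝ, IsLimitLaw D ν' → ν' = ν) ∧
    Integrable (fun y : ℝ => y ^ 2) ν ∧ ∫ y, y ∂ν = 0 ∧
    HasSum (fun t : ℝ => (μ t / t) ^ 2) (∫ y, y ^ 2 ∂ν) ∧
    Tendsto (fun X : ℝ => (∫ x in Real.exp 1..X, (Real.log x * D x) ^ 2 / x) / Real.log X) atTop
      (𝓝 (∫ y, y ^ 2 ∂ν)) ∧
    ∀ c : ℝ, ν {c} = 0 → Tendsto (shareAbove D c) atTop (𝓝 (ν.real (Ioi c)))

/-- `ν` is the joint limiting logarithmic distribution of the functions `log x · δ_i(x)`. -/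
def IsJointLaw {ι : Type} (δ : ι → ℝ → ℝ) (ν : Measure (ι → ℝ)) : Prop :=
  IsProbabilityMeasure ν ∧ ∀ φ : (ι → ℝ) → ℝ, Continuous φ → (∃ B : ℝ, ∀ y, |φ y| ≤ B) →
    Tendsto (fun X : ℝ =>
      (∫ x in Real.exp 1..X, φ (fun i => Real.log x * δ i x) / x) / Real.log X) atTop
      (𝓝 (∫ y, φ y ∂ν))

/-- There is exactly one joint limiting logarithmic distribution `ν` of the functions
`log x · δ_i(x)`; its means are `0`; its covariances are `∑_t m_i(t) m_j(t)/t²`, and they are the limits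
of the means of `log x · δ_i(x) · log x · δ_j(x)`; and `ν` is supported in the hyperplane
`∑ c_i y_i = 0` if and only if `∑ c_i m_i(t) = 0` for all `t ≠ 0`. -/
def JointLaw {ι : Type} [Fintype ι] (m : ι → ℝ → ℕ) (δ : ι → ℝ → ℝ) : Prop :=
  ∃ ν : Measure (ι → ℝ), (IsJointLaw δ ν ∧ ∀ ν' : Measure (ι → ℝ), IsJointLaw δ ν' → ν' = ν) ∧
    (∀ i, Integrable (fun y : ι → ℝ => y i ^ 2) ν) ∧ (∀ i, ∫ y, y i ∂ν = 0) ∧
    (∀ i j, HasSum (fun t : ℝ => (m i t : ℝ) * m j t / t ^ 2) (∫ y, y i * y j ∂ν) ∧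
      Tendsto (fun X : ℝ =>
        (∫ x in Real.exp 1..X, (Real.log x * δ i x) * (Real.log x * δ j x) / x) / Real.log X) atTop
        (𝓝 (∫ y, y i * y j ∂ν))) ∧
    ∀ c : ι → ℝ, (∀ᵐ y ∂ν, ∑ i, c i * y i = 0) ↔ ∀ t : ℝ, t ≠ 0 → ∑ i, c i * (m i t : ℝ) = 0

/-- The equivalence of (i), (ii) and (iii) of Q1: `per` is (i), `hom` and `homv v` are the global and
the local conditions on the `Hom`-spaces, `central` says that the central value is not zero. -/
def Equivalent {V : Type} (per hom : Prop) (homv : V → Prop) (central : Prop) : Prop :=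
  (per ↔ hom ∧ central) ∧ (per ↔ (∀ v, homv v) ∧ central)

end defs

section family

variable {ι : Type} [Fintype ι] {K : ι → Type} [∀ i, Field (K i)] [∀ i, NumberField (K i)]
  {N : ι → ℕ}

/-- `D(x) = log (A ∏_i P_i(x)^(w_i) / (e^γ log x)^ρ)` -/
noncomputable def dev (S : ∀ i, Finset (HeightOneSpectrum (𝓞 (K i))))
    (r : ∀ i, HeightOneSpectrum (𝓞 (K i)) → Fin (N i) → ℂ) (w : ι → ℝ) (ρ A x : ℝ) : ℝ :=
  Real.log (A * (∏ i, product (S i) (r i) x ^ w i) /
    (Real.exp Real.eulerMascheroniConstant * Real.log x) ^ ρ)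

/-- `∑_i w_i m_i(t)` -/
noncomputable def wmult (F : ι → ℂ → ℂ) (w : ι → ℝ) (t : ℝ) : ℝ := ∑ i, w i * (mult (F i) t : ℝ)

end family

/-! ### Translation to the definitions of the imported files -/

open Pool.Agent.TH270.MS (Pl)
open Pool.Agent.Q5.NF (Roots IsL res)
open Pool.Agent.Q5.VA (NS)
open Pool.Agent.Q5.LI (RHH LeadH multH)
open Pool.Agent.H21.RH (Pack IsD LawR pack_nf pack_lin pack_indep pack_upper coeff_bound)

section main

variable {ι : Type} [Fintype ι] {K : ι → Type} [∀ i, Field (K i)] [∀ i, NumberField (K i)]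
  {N : ι → ℕ} {S : ∀ i, Finset (HeightOneSpectrum (𝓞 (K i)))}
  {r : ∀ i, HeightOneSpectrum (𝓞 (K i)) → Fin (N i) → ℂ} {F : ι → ℂ → ℂ} {w : ι → ℝ}

theorem isD (w : ι → ℝ) (ρ : ℝ) {A : ℝ} (hA : 0 < A) :
    IsD (fun i => NS (S i)) (fun i => res (S i) (r i)) w ρ A (dev S r w ρ A) := by
  intro x hx
  have hl : 0 < Real.log x := by linarith [Pool.Agent.TH270.MS.one_le_log hx]
  have h1 : 0 < Real.exp Real.eulerMascheroniConstant * Real.log x :=
    mul_pos (Real.exp_pos _) hl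
  have h2 := Real.rpow_pos_of_pos h1 ρ
  have h3 : ∀ i, 0 < product (S i) (r i) x := fun i => Real.exp_pos _
  have h4 : ∀ i, 0 < product (S i) (r i) x ^ w i := fun i => Real.rpow_pos_of_pos (h3 i) _
  have h5 : 0 < ∏ i, product (S i) (r i) x ^ w i := Finset.prod_pos fun i _ => h4 i
  have h6 : ∀ i, Real.log (product (S i) (r i) x) = -Pl (NS (S i)) (res (S i) (r i)) x :=
    fun i => Pool.Agent.Q5.NF.log_product x
  unfold dev
  rw [Real.log_div (mul_pos hA h5).ne' h2.ne', Real.log_mul hA.ne' h5.ne',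
    Real.log_prod fun i _ => (h4 i).ne', Real.log_rpow h1, Real.log_mul (Real.exp_pos _).ne' hl.ne',
    Real.log_exp]
  have h7 : ∑ i, Real.log (product (S i) (r i) x ^ w i) =
      ∑ i, w i * -Pl (NS (S i)) (res (S i) (r i)) x :=
    Finset.sum_congr rfl fun i _ => by rw [Real.log_rpow (h3 i), h6]
  rw [h7]
  ring

theorem log_prod_iff {A : ℝ} (hA : 0 < A) {c : ι → ℝ} (hc : ∀ i, 0 < c i) (w : ι → ℝ) :
    Real.log A = ∑ i, w i * Real.log (c i) ↔ A = ∏ i, c i ^ w i := by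
  have h1 : ∀ i, 0 < c i ^ w i := fun i => Real.rpow_pos_of_pos (hc i) _
  have h2 : 0 < ∏ i, c i ^ w i := Finset.prod_pos fun i _ => h1 i
  have h3 : ∑ i, w i * Real.log (c i) = Real.log (∏ i, c i ^ w i) := by
    rw [Real.log_prod fun i _ => (h1 i).ne']
    exact Finset.sum_congr rfl fun i _ => by rw [Real.log_rpow (hc i)]
  rw [h3]
  exact ⟨fun h => Real.log_injOn_pos (mem_Ioi.2 hA) (mem_Ioi.2 h2) h, fun h => by rw [h]⟩

/-- the leading coefficient for the order `p` -/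
theorem lead_iff_p {F : ℂ → ℂ} (hF : AnalyticAt ℂ F (1 / 2)) {p : ℕ}
    (h : analyticOrderAt F (1 / 2) = p) {e : ℕ} {c : ℝ} (hc : 0 < c) :
    IsLeading F e c ↔ e = p ∧ LeadH F p c := by
  constructor
  · intro h1
    have h2 : LeadH F e c := ⟨e, rfl, h1⟩
    have h3 := Pool.Agent.H21.RH.lead_eq hF h hc h2
    have h4 : e = p := by exact_mod_cast h3
    exact ⟨h4, h4 ▸ h2⟩
  · rintro ⟨rfl, e', he', h1⟩
    have h4 : e = e' := by exact_mod_cast he'
    rw [← h4] at h1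
    exact h1

/-- **One law determines the joint distribution.** -/
theorem result {ι : Type} [Fintype ι] (K : ι → Type) [∀ i, Field (K i)] [∀ i, NumberField (K i)]
    (N : ι → ℕ) (S : ∀ i, Finset (HeightOneSpectrum (𝓞 (K i))))
    (r : ∀ i, HeightOneSpectrum (𝓞 (K i)) → Fin (N i) → ℂ) (hr : ∀ i, SelfDual (S i) (r i))
    (F : ι → ℂ → ℂ) (hF : ∀ i, IsLSeries (S i) (r i) (F i)) :
    -- weights which are linearly independent over `ℚ`
    (∀ w : ι → ℝ, LinearIndependent ℚ w → ∀ ρ A : ℝ, 0 < A →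
      List.TFAE [
        ∃ (e : ι → ℕ) (c : ι → ℝ), (∀ i, 0 < c i ∧ RH (F i) ∧ IsLeading (F i) (e i) (c i)) ∧
          ρ = ∑ i, w i * e i ∧ A = ∏ i, c i ^ w i,
        MeanZero (dev S r w ρ A),
        BoundedMeanSquare (dev S r w ρ A),
        HasLimitLaw (dev S r w ρ A),
        LimitLaw (wmult F w) (dev S r w ρ A),
        ∃ (e : ι → ℕ) (c : ι → ℝ), (∀ i, 0 < c i) ∧ ρ = ∑ i, w i * e i ∧ A = ∏ i, c i ^ w i ∧
          JointLaw (fun i => mult (F i)) (fun i => delta (S i) (r i) (e i) (c i)),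
        ∃ (e : ι → ℕ) (c : ι → ℝ), (∀ i, 0 < c i) ∧ ρ = ∑ i, w i * e i ∧ A = ∏ i, c i ^ w i ∧
          ∀ w' : ι → ℝ, LimitLaw (wmult F w')
            (dev S r w' (∑ i, w' i * e i) (∏ i, c i ^ w' i))]) ∧
    -- arbitrary real weights
    (∀ (w : ι → ℝ) (e : ι → ℕ) (c : ι → ℝ),
      (∀ i, 0 < c i ∧ RH (F i) ∧ IsLeading (F i) (e i) (c i)) → ∀ ρ A : ℝ, 0 < A →
      List.TFAE [
        ρ = ∑ i, w i * e i ∧ A = ∏ i, c i ^ w i,
        MeanZero (dev S r w ρ A),
        BoundedMeanSquare (dev S r w ρ A),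
        HasLimitLaw (dev S r w ρ A),
        LimitLaw (wmult F w) (dev S r w ρ A)]) ∧
    -- one-sided bounds
    (∀ w : ι → ℝ, LinearIndependent ℚ w →
      (∀ x : ℝ, 1 / 2 < x → 0 ≤ ∑ i, w i * (analyticOrderNatAt (F i) x : ℝ)) →
      ∀ ρ A B : ℝ, 0 < A → (∀ᶠ x : ℝ in atTop, Real.log x * dev S r w ρ A x ≤ B) →
      (∀ i, RH (F i)) ∧
      ∀ (e : ι → ℕ) (c : ι → ℝ), (∀ i, 0 < c i ∧ IsLeading (F i) (e i) (c i)) →
        ∑ i, w i * e i ≤ ρ ∧ (ρ = ∑ i, w i * e i → A = ∏ i, c i ^ w i →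
          ∀ t : ℝ, t ≠ 0 → |wmult F w t| ≤ B * |t|)) ∧
    -- all central values
    (∀ w : ι → ℝ, LinearIndependent ℚ w →
      ((∀ i, RH (F i) ∧ F i (1 / 2) ≠ 0) ↔ ∃ A : ℝ, 0 < A ∧ MeanZero (dev S r w 0 A)) ∧
      ∀ A : ℝ, 0 < A → MeanZero (dev S r w 0 A) → A = ∏ i, ‖F i (1 / 2)‖ ^ w i ∧
        ∀ (i : ι) (V : Type) (per hom : Prop) (homv : V → Prop),
          (Equivalent per hom homv (F i (1 / 2) ≠ 0) ↔ (per ↔ hom) ∧ (per ↔ ∀ v, homv v))) := by
  classical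
  choose p hp P using fun i => pack_nf (hr i) (hF i)
  have hana : ∀ i, AnalyticAt ℂ (F i) (1 / 2) := fun i =>
    Pool.Agent.Q5.NF.IsL.ana (S := S i) (r := r i) (hF i) (by norm_num)
  have hld : ∀ i (e : ℕ) (c : ℝ), 0 < c → (IsLeading (F i) e c ↔ e = p i ∧ LeadH (F i) (p i) c) :=
    fun i e c hc => lead_iff_p (hana i) (hp i) hc
  have E1 : ∀ (w : ι → ℝ) (ρ A : ℝ), 0 < A →
      ((∃ (e : ι → ℕ) (c : ι → ℝ), (∀ i, 0 < c i ∧ RH (F i) ∧ IsLeading (F i) (e i) (c i)) ∧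
        ρ = ∑ i, w i * e i ∧ A = ∏ i, c i ^ w i) ↔
      ∃ c : ι → ℝ, (∀ i, 0 < c i ∧ (RHH (F i) ∧ LeadH (F i) (p i) (c i))) ∧
        ρ = ∑ i, w i * p i ∧ Real.log A = ∑ i, w i * Real.log (c i)) := by
    intro w ρ A hA
    constructor
    · rintro ⟨e, c, h1, h2, h3⟩
      have he : e = p := funext fun i => ((hld i _ _ (h1 i).1).1 (h1 i).2.2).1
      subst he
      exact ⟨c, fun i => ⟨(h1 i).1, (h1 i).2.1, ((hld i _ _ (h1 i).1).1 (h1 i).2.2).2⟩, h2,
        (log_prod_iff hA (fun i => (h1 i).1) w).2 h3⟩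
    · rintro ⟨c, h1, h2, h3⟩
      exact ⟨p, c, fun i => ⟨(h1 i).1, (h1 i).2.1, (hld i _ _ (h1 i).1).2 ⟨rfl, (h1 i).2.2⟩⟩, h2,
        (log_prod_iff hA (fun i => (h1 i).1) w).1 h3⟩
  have part1 : ∀ w : ι → ℝ, LinearIndependent ℚ w → ∀ ρ A : ℝ, 0 < A →
      List.TFAE [
        ∃ (e : ι → ℕ) (c : ι → ℝ), (∀ i, 0 < c i ∧ RH (F i) ∧ IsLeading (F i) (e i) (c i)) ∧
          ρ = ∑ i, w i * e i ∧ A = ∏ i, c i ^ w i,
        MeanZero (dev S r w ρ A),
        BoundedMeanSquare (dev S r w ρ A),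
        HasLimitLaw (dev S r w ρ A),
        LimitLaw (wmult F w) (dev S r w ρ A),
        ∃ (e : ι → ℕ) (c : ι → ℝ), (∀ i, 0 < c i) ∧ ρ = ∑ i, w i * e i ∧ A = ∏ i, c i ^ w i ∧
          JointLaw (fun i => mult (F i)) (fun i => delta (S i) (r i) (e i) (c i)),
        ∃ (e : ι → ℕ) (c : ι → ℝ), (∀ i, 0 < c i) ∧ ρ = ∑ i, w i * e i ∧ A = ∏ i, c i ^ w i ∧
          ∀ w' : ι → ℝ, LimitLaw (wmult F w')
            (dev S r w' (∑ i, w' i * e i) (∏ i, c i ^ w' i))] := by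
    intro w hw ρ A hA
    have base := pack_indep P (isD w ρ hA) hw
    have hj : ∀ (e : ι → ℕ) (c : ι → ℝ), (∀ i, 0 < c i) →
        ((∀ i, RHH (F i) ∧ LeadH (F i) (e i) (c i)) ↔
        JointLaw (fun i => mult (F i)) (fun i => delta (S i) (r i) (e i) (c i))) := fun e c hc =>
      (Pool.Agent.Q5.DC.joint_tfae (P := fun i => RHH (F i) ∧ LeadH (F i) (e i) (c i))
        (m := fun i => multH (F i)) (δ := fun i => Pool.Agent.Q5.NF.dev (S i) (r i) (e i) (c i))
        (fun i => ((P i).err _ _ (hc i)).1) (fun i => ((P i).err _ _ (hc i)).2.1)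
        (fun i => ((P i).err _ _ (hc i)).2.2)).out 0 3
    tfae_have 1 ↔ 2 := (E1 w ρ A hA).trans (base.out 0 1)
    tfae_have 2 ↔ 3 := base.out 1 2
    tfae_have 3 ↔ 4 := base.out 2 3
    tfae_have 4 ↔ 5 := base.out 3 4
    tfae_have 1 → 6 := by
      rintro ⟨e, c, h1, h2, h3⟩
      refine ⟨e, c, fun i => (h1 i).1, h2, h3, (hj e c fun i => (h1 i).1).1 fun i =>
        ⟨(h1 i).2.1, ?_⟩⟩
      obtain ⟨k1, k2⟩ := (hld i _ _ (h1 i).1).1 (h1 i).2.2
      rw [k1]
      exact k2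
    tfae_have 6 → 1 := by
      rintro ⟨e, c, h1, h2, h3, h4⟩
      refine ⟨e, c, fun i => ?_, h2, h3⟩
      obtain ⟨k1, k2⟩ := (hj e c h1).2 h4 i
      have k3 : e i = p i := by
        exact_mod_cast ((P i).rh _ _ (h1 i) ⟨k1, k2⟩).2
      exact ⟨h1 i, k1, (hld i _ _ (h1 i)).2 ⟨k3, k3 ▸ k2⟩⟩
    tfae_have 1 → 7 := by
      rintro ⟨e, c, h1, h2, h3⟩
      have he : e = p := funext fun i => ((hld i _ _ (h1 i).1).1 (h1 i).2.2).1
      subst he
      refine ⟨e, c, fun i => (h1 i).1, h2, h3, fun w' => ?_⟩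
      have hA' : 0 < ∏ i, c i ^ w' i :=
        Finset.prod_pos fun i _ => Real.rpow_pos_of_pos (h1 i).1 _
      have k := pack_lin P (isD w' (∑ i, w' i * e i) hA') (fun i =>
        ⟨(h1 i).1, (h1 i).2.1, ((hld i _ _ (h1 i).1).1 (h1 i).2.2).2⟩)
      have k4 : (∑ i, w' i * (e i : ℝ) = ∑ i, w' i * e i ∧
          Real.log (∏ i, c i ^ w' i) = ∑ i, w' i * Real.log (c i)) ↔
          LimitLaw (wmult F w') (dev S r w' (∑ i, w' i * e i) (∏ i, c i ^ w' i)) := k.out 0 4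
      exact k4.1 ⟨rfl, (log_prod_iff hA' (fun i => (h1 i).1) w').2 rfl⟩
    tfae_have 7 → 5 := by
      rintro ⟨e, c, h1, h2, h3, h4⟩
      have := h4 w
      rwa [← h2, ← h3] at this
    tfae_finish
  refine ⟨part1, ?_, ?_, ?_⟩
  · intro w e c h1 ρ A hA
    have he : e = p := funext fun i => ((hld i _ _ (h1 i).1).1 (h1 i).2.2).1
    subst he
    have k := pack_lin P (isD w ρ hA) (c := c) (fun i =>
      ⟨(h1 i).1, (h1 i).2.1, ((hld i _ _ (h1 i).1).1 (h1 i).2.2).2⟩)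
    rw [log_prod_iff hA (fun i => (h1 i).1) w] at k
    exact k
  · intro w hw hsg ρ A B hA hB
    have hm : ∀ z : ℂ, Pool.Agent.H21.RC.mult w (fun i s => F i (1 / 2 + s)) z =
        ∑ i, w i * (analyticOrderNatAt (F i) (1 / 2 + z) : ℝ) := by
      intro z
      unfold Pool.Agent.H21.RC.mult
      exact Finset.sum_congr rfl fun i _ => by rw [Pool.Agent.H21.RD.nat_shiftC]
    obtain ⟨h1, h2⟩ := pack_upper P (isD w ρ hA) (fun x hx => by
      rw [hm]
      have := hsg (1 / 2 + x) (by linarith)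
      push_cast at this
      exact this) hB
    have h3 : ∀ i, RH (F i) := by
      intro i s hs
      have h4 := Pool.Agent.H21.RD.indep_sys (fun i => (P i).mh) (fun i => (P i).order) hw
        (s := s - 1 / 2) (by
          rw [Complex.sub_re]
          norm_num
          linarith) (h1 _ (by
          rw [Complex.sub_re]
          norm_num
          linarith)) i
      simp only [add_sub_cancel] at h4
      exact h4
    refine ⟨h3, fun e c hc => ?_⟩
    have he : e = p := funext fun i => ((hld i _ _ (hc i).1).1 (hc i).2).1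
    subst he
    refine ⟨h2, fun h4 h5 t ht => ?_⟩
    have h6 := coeff_bound P (isD w ρ hA) (fun i =>
      ⟨(hc i).1, h3 i, ((hld i _ _ (hc i).1).1 (hc i).2).2⟩) h4
      ((log_prod_iff hA (fun i => (hc i).1) w).2 h5) hB ht
    rw [div_le_iff₀ (abs_pos.2 ht)] at h6
    exact h6
  · intro w hw
    have key : ∀ A : ℝ, 0 < A → MeanZero (dev S r w 0 A) →
        ∃ c : ι → ℝ, (∀ i, 0 < c i ∧ RH (F i) ∧ F i (1 / 2) = c i) ∧ A = ∏ i, c i ^ w i := by
      intro A hA h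
      obtain ⟨e, c, h1, h2, h3⟩ := ((part1 w hw 0 A hA).out 1 0).1 h
      have he : e = fun _ => 0 := by
        refine Pool.Agent.H21.RD.indep_nat hw ?_
        unfold Pool.Agent.H21.RC.RR
        rw [← h2]
        simp
      refine ⟨c, fun i => ⟨(h1 i).1, (h1 i).2.1, ?_⟩, h3⟩
      have h4 := (h1 i).2.2
      rw [he] at h4
      unfold IsLeading at h4
      simp only [pow_zero, div_one] at h4
      exact tendsto_nhds_unique ((hana i).continuousAt.tendsto.mono_left nhdsWithin_le_nhds) h4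
    refine ⟨⟨fun h => ?_, ?_⟩, fun A hA h => ?_⟩
    · choose c hc hR hL using fun i => (Pool.Agent.Q5.NF.nonvanishing (hr i) (hF i)).1 (h i)
      have hA' : 0 < ∏ i, c i ^ w i := Finset.prod_pos fun i _ => Real.rpow_pos_of_pos (hc i) _
      have k := (part1 w hw 0 _ hA').out 0 1
      refine ⟨_, hA', k.1 ⟨fun _ => 0, c, fun i => ⟨hc i, hR i, ?_⟩, by simp, rfl⟩⟩
      obtain ⟨e', he', h1⟩ := hL i
      have h2 : e' = 0 := by exact_mod_cast he'.symm
      rw [h2] at h1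
      exact h1
    · rintro ⟨A, hA, h⟩ i
      obtain ⟨c, hc, -⟩ := key A hA h
      refine ⟨(hc i).2.1, ?_⟩
      rw [(hc i).2.2]
      exact_mod_cast (hc i).1.ne'
    · obtain ⟨c, hc, h1⟩ := key A hA h
      refine ⟨?_, fun i V per hom homv => ?_⟩
      · rw [h1]
        refine Finset.prod_congr rfl fun i _ => ?_
        rw [(hc i).2.2, Complex.norm_real, Real.norm_of_nonneg (hc i).1.le]
      · have h2 : F i (1 / 2) ≠ 0 := by
          rw [(hc i).2.2]
          exact_mod_cast (hc i).1.ne'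
        unfold Equivalent
        simp only [h2, ne_eq, not_false_eq_true, and_true]

end main

end Pool.Agent.Results.MP_86aa84_nt.OneLawJointDistribution
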