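import Pool.Agent.H21.RG.NF

/-!
# Central values `L(π_i, R_i, 1/2)` of several representations and one asymptotic law

Let `π_i`, `i ∈ ι`, be finitely many tempered representations (as in Q1) of groups over number fields
`K_i`, let `r_{i,v,j}`, `v ∉ S_i`, be the eigenvalues of `R_i(φ_v)`: they are in the closed unit disc,
and their power sums are real as `R_i` is symplectic. Let `F_i` be a continuation of the incomplete
`L`-function `∏_{v ∉ S_i} ∏_j (1 - r_{i,v,j} q_v^{-s})⁻¹`, holomorphic for `Re s > 1/2` and at `1/2`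
(nothing is assumed about its growth), `e_i` its order and `c_i` its leading coefficient at `1/2`, and

`P*_i(x) = exp (- ∑_{v ∉ S_i, q_v^k ≤ x} (∑_j r_{i,v,j}^k) / (k q_v^{k/2}))`.

For REAL weights `w_i` of any signs let `Q(x) = ∏ P*_i(x)^(w_i)`, `T = ∏ (e^(γ e_i)/|c_i|)^(w_i)`,
`ρ = ∑ w_i e_i` and `m(z) = ∑ w_i ord_{s = 1/2 + z} F_i` (the zeros of the different `L`-functions may
cancel).

1. `Q(x) / (log x)^κ → C ≠ 0` implies `κ = ρ`, `C = T`, and `m(z) = 0` for `Re z > 0`.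
2. Equivalent: `Q(x) / (log x)^κ → C` for some `κ` and `C ≠ 0`; `Q(x) / (log x)^ρ → T`; `m ≥ 0` on the
   real half-line `z > 0` and `Q(y) ≤ (1 + ε) Q(x)` for `x ≤ y ≤ x^(1+δ)`; the same with opposite signs.
   The analogous equivalences hold for the order of magnitude.
3. If `m ≥ 0` on the real half-line and `Q(x) ≤ C (log x)^κ` then `m(z) = 0` for `Re z > 0`, `ρ ≤ κ`, and
   `T ≤ C` in the case of equality.
4. **All central values from one law.** If the `w_i` are linearly independent over `ℚ` and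
   `Q(x) → C ≠ 0` then for ALL `i` the central value `F_i(1/2)` is not zero, `F_i` has no zeros with
   `Re s > 1/2`, and the conjecture for `π_i` says that the period is not zero if and only if the
   local (or the global) `Hom`-spaces are not zero.
5. **Transfer.** Let `Q(x) → C ≠ 0` and `w_j ≠ 0`. If `F_i(1/2) ≠ 0` for all `i ≠ j` with `w_i ≠ 0` then
   `F_j(1/2) ≠ 0` and `∏ |F_i(1/2)|^(w_i) = 1 / C`.
6. **Two representations.** `P*_i(x) / P*_j(x) → C ≠ 0` implies that `F_i(1/2 + z)` and `F_j(1/2 + z)`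
   have the same zeros with `Re z > 0` and at `z = 0`, with the same multiplicities, that
   `C = |F_j(1/2)| / |F_i(1/2)|` if one of the values is not zero, and that in the conjecture for `π_i`
   the value `L(π_i, R_i, 1/2)` may be replaced by `L(π_j, R_j, 1/2)`.
-/

set_option autoImplicit false

namespace Pool.Agent.Results.MP_86aa84_nt.SeveralRepresentations

open Filter Topology NumberField IsDedekindDomain

section defs

variable {K : Type} [Field K] [NumberField K] {N : ℕ}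

/-- The norm `q_v`. -/
noncomputable def norm (v : HeightOneSpectrum (𝓞 K)) : ℕ := Ideal.absNorm v.asIdeal

/-- For all primes `v` outside of the finite set `S` the `r_{v,j}` are in the closed unit disc and
have real power sums. -/
def SelfDual (S : Finset (HeightOneSpectrum (𝓞 K))) (r : HeightOneSpectrum (𝓞 K) → Fin N → ℂ) :
    Prop :=
  ∀ v : HeightOneSpectrum (𝓞 K), v ∉ S → (∀ j, ‖r v j‖ ≤ 1) ∧ ∀ k : ℕ, (∑ j, r v j ^ k).im = 0

/-- `F` is a continuation of the incomplete `L`-function `∏_{v ∉ S} ∏_j (1 - r_{v,j} q_v^{-s})⁻¹`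
(`Re s > 1`), holomorphic for `Re s > 1/2` and at `s = 1/2`. -/
structure IsLSeries (S : Finset (HeightOneSpectrum (𝓞 K)))
    (r : HeightOneSpectrum (𝓞 K) → Fin N → ℂ) (F : ℂ → ℂ) : Prop where
  diff : ∀ s : ℂ, 1 / 2 < s.re → DifferentiableAt ℂ F s
  centre : AnalyticAt ℂ F (1 / 2)
  prod : ∀ s : ℂ, 1 < s.re →
    HasProd (fun v : {v : HeightOneSpectrum (𝓞 K) // v ∉ S} =>
      (∏ j, (1 - r v.1 j * (norm v.1 : ℂ) ^ (-s)))⁻¹) (F s)

/-- `P*(x) = exp (- ∑_{v ∉ S, q_v^k ≤ x} (∑_j r_{v,j}^k) / (k q_v^{k/2}))`, the (finite) sum over the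
pairs `(v, k)`, `v` a prime outside of `S`, `k = p.2 + 1 ≥ 1`, with `q_v^k ≤ x`. -/
noncomputable def productStar (S : Finset (HeightOneSpectrum (𝓞 K)))
    (r : HeightOneSpectrum (𝓞 K) → Fin N → ℂ) (x : ℝ) : ℝ :=
  Real.exp (-∑ᶠ (p : {v : HeightOneSpectrum (𝓞 K) // v ∉ S} × ℕ)
    (_ : (norm p.1.1 : ℝ) ^ (p.2 + 1) ≤ x),
      (∑ j, r p.1.1 j ^ (p.2 + 1)).re / (((p.2 : ℝ) + 1) * √(norm p.1.1 : ℝ) ^ (p.2 + 1)))

/-- `F(s) / (s - 1/2)^e → c ≠ 0` for `s → 1/2`: the order of `F` at `1/2` is `e` and `c` is the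
leading coefficient. -/
def IsLeading (F : ℂ → ℂ) (e : ℕ) (c : ℂ) : Prop :=
  c ≠ 0 ∧ Tendsto (fun s : ℂ => F s / (s - 1 / 2) ^ e) (𝓝[≠] (1 / 2 : ℂ)) (𝓝 c)

/-- For every `ε > 0` there is a `δ > 0` with `Q(y) ≤ (1 + ε) Q(x)` for all large `x` and
`x ≤ y ≤ x^(1+δ)`. -/
def SlowAbove (Q : ℝ → ℝ) : Prop :=
  ∀ ε : ℝ, 0 < ε → ∃ δ : ℝ, 0 < δ ∧ ∀ᶠ x : ℝ in atTop, ∀ y, x ≤ y → y ≤ x ^ (1 + δ) →
    Q y ≤ (1 + ε) * Q x

/-- For every `ε > 0` there is a `δ > 0` with `Q(x) ≤ (1 + ε) Q(y)` for all large `x` and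
`x ≤ y ≤ x^(1+δ)`. -/
def SlowBelow (Q : ℝ → ℝ) : Prop :=
  ∀ ε : ℝ, 0 < ε → ∃ δ : ℝ, 0 < δ ∧ ∀ᶠ x : ℝ in atTop, ∀ y, x ≤ y → y ≤ x ^ (1 + δ) →
    Q x ≤ (1 + ε) * Q y

/-- The equivalence of (i), (ii) and (iii) of Q1: `per` is (i), `hom` and `homv v` are the global and
the local conditions on the `Hom`-spaces, `central` says that the central value is not zero. -/
def Equivalent {V : Type} (per hom : Prop) (homv : V → Prop) (central : Prop) : Prop :=
  (per ↔ hom ∧ central) ∧ (per ↔ (∀ v, homv v) ∧ central)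

end defs

section family

variable {ι : Type} [Fintype ι] {K : ι → Type} [∀ i, Field (K i)] [∀ i, NumberField (K i)]
  {N : ι → ℕ}

/-- `Q(x) = ∏_i P*_i(x)^(w_i)` -/
noncomputable def Q (S : ∀ i, Finset (HeightOneSpectrum (𝓞 (K i))))
    (r : ∀ i, HeightOneSpectrum (𝓞 (K i)) → Fin (N i) → ℂ) (w : ι → ℝ) (x : ℝ) : ℝ :=
  ∏ i, productStar (S i) (r i) x ^ w i

/-- `∑_i w_i ord_{s = 1/2 + z} F_i` -/
noncomputable def wt (F : ι → ℂ → ℂ) (w : ι → ℝ) (z : ℂ) : ℝ :=
  ∑ i, w i * (analyticOrderNatAt (F i) (1 / 2 + z) : ℝ)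

/-- `T = ∏_i (e^(γ e_i) / |c_i|)^(w_i)` -/
noncomputable def T (e : ι → ℕ) (c : ι → ℂ) (w : ι → ℝ) : ℝ :=
  ∏ i, (Real.exp (Real.eulerMascheroniConstant * e i) / ‖c i‖) ^ w i

end family

/-! ### Translation to the definitions of the imported files -/

open Pool.Agent.TH942.ES (cv zv xv cP Sys)
open Pool.Agent.TH270.MS (Mc Pl)
open Pool.Agent.Q5.VA (NS)
open Pool.Agent.W5h26.ML (Mh)
open Pool.Agent.H21.RD Pool.Agent.H21.RE Pool.Agent.H21.RG
open Pool.Agent.H21.RC (comb mult RR KK)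

section translation

variable {K : Type} [Field K] [NumberField K] {N : ℕ} {S : Finset (HeightOneSpectrum (𝓞 K))}
  {r : HeightOneSpectrum (𝓞 K) → Fin N → ℂ} {F : ℂ → ℂ}

theorem log_star (y : ℝ) :
    Real.log (productStar S r y) = -Pl (NS S) (res S r) y := by
  unfold productStar Pl
  rw [Real.log_exp]
  congr 1
  refine finsum_congr fun p => finsum_congr fun _ => ?_
  rw [cP_N p]
  rfl

theorem star_pos (y : ℝ) : 0 < productStar S r y := Real.exp_pos _

theorem mh (h : SelfDual S r) (hF : IsLSeries S r F) :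
    Mh (NS S) (res S r) (fun s => F (1 / 2 + s)) 0 :=
  nf_mh h hF.diff hF.centre fun s hs => hF.prod s hs

/-- the leading coefficient -/
theorem exists_leading (hF : AnalyticAt ℂ F (1 / 2)) {e : ℕ} (h : analyticOrderAt F (1 / 2) = e) :
    ∃ c : ℂ, IsLeading F e c := by
  obtain ⟨g, hg, hg0, hg1⟩ := (hF.analyticOrderAt_eq_natCast).1 h
  refine ⟨g (1 / 2), hg0, ?_⟩
  have h1 : Tendsto g (𝓝[≠] (1 / 2 : ℂ)) (𝓝 (g (1 / 2))) :=
    hg.continuousAt.tendsto.mono_left nhdsWithin_le_nhds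
  refine h1.congr' ?_
  filter_upwards [nhdsWithin_le_nhds hg1, self_mem_nhdsWithin] with s h2 h3
  have h4 : s - 1 / 2 ≠ 0 := sub_ne_zero.2 h3
  rw [h2, smul_eq_mul, mul_div_cancel_left₀ _ (pow_ne_zero _ h4)]

/-- the leading coefficient along the real axis -/
theorem leading_real {e : ℕ} {c : ℂ} (h : IsLeading F e c) :
    Tendsto (fun x : ℝ => ‖F (1 / 2 + x)‖ / x ^ e) (𝓝[>] 0) (𝓝 ‖c‖) := by
  have h1 : Tendsto (fun x : ℝ => (1 / 2 : ℂ) + x) (𝓝[>] 0) (𝓝[≠] (1 / 2 : ℂ)) := by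
    refine tendsto_nhdsWithin_iff.2 ⟨?_, ?_⟩
    · have h2 : Tendsto (fun x : ℝ => (1 / 2 : ℂ) + x) (𝓝 0) (𝓝 ((1 / 2 : ℂ) + ((0 : ℝ) : ℂ))) := by
        refine Continuous.tendsto ?_ 0
        fun_prop
      rw [Complex.ofReal_zero, add_zero] at h2
      exact h2.mono_left nhdsWithin_le_nhds
    · filter_upwards [self_mem_nhdsWithin] with x hx
      have hx0 : (0 : ℝ) < x := hx
      show (1 / 2 : ℂ) + x ≠ 1 / 2
      rw [Ne, add_eq_left, Complex.ofReal_eq_zero]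
      exact hx0.ne'
  refine ((h.2.comp h1).norm).congr' ?_
  filter_upwards [self_mem_nhdsWithin] with x hx
  have hx0 : (0 : ℝ) < x := hx
  simp only [Function.comp_apply, add_sub_cancel_left, norm_div, norm_pow, Complex.norm_real,
    Real.norm_of_nonneg hx0.le]

/-- order zero means that the central value is not zero -/
theorem order_zero_iff (hF : AnalyticAt ℂ F (1 / 2)) {e : ℕ}
    (h : analyticOrderAt F (1 / 2) = e) : e = 0 ↔ F (1 / 2) ≠ 0 := by
  rw [← hF.analyticOrderAt_eq_zero, h]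
  exact_mod_cast Iff.rfl

/-- the leading coefficient of order zero -/
theorem leading_zero (hF : AnalyticAt ℂ F (1 / 2)) {c : ℂ} (h : IsLeading F 0 c) :
    c = F (1 / 2) := by
  have h1 := h.2
  simp only [pow_zero, div_one] at h1
  exact tendsto_nhds_unique h1 (hF.continuousAt.tendsto.mono_left nhdsWithin_le_nhds)

end translation

section near

variable {ι : Type} {X : ι → Type} {d : ι → ℕ} {N : ∀ i, X i → ℕ}
  {α : ∀ i, X i → Fin (d i) → ℂ} {G₀ : ι → ℂ → ℂ} {p : ι → ℕ} {a : ι → ℝ → ℝ} {c : ι → ℝ}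

theorem rep_near (R : Rep N α G₀ p a c) : NearG a G₀ (fun _ _ => 0) 1 p c where
  cen := R.cen
  hloc := fun i U => by
    obtain ⟨-, C, σ, hσ, hC⟩ := R.eg i
    refine ⟨|C| * Real.exp (σ * |U|), fun u hu => (hC u).trans ?_⟩
    have h1 : Real.exp (σ * u) ≤ Real.exp (σ * |U|) :=
      Real.exp_le_exp.2 (mul_le_mul_of_nonneg_left (hu.trans (le_abs_self U)) hσ.le)
    calc C * Real.exp (σ * u) ≤ |C| * Real.exp (σ * u) :=
          mul_le_mul_of_nonneg_right (le_abs_self C) (Real.exp_pos _).le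
      _ ≤ _ := mul_le_mul_of_nonneg_left h1 (abs_nonneg _)

end near

section main

variable {ι : Type} [Fintype ι] {K : ι → Type} [∀ i, Field (K i)] [∀ i, NumberField (K i)]
  {N : ι → ℕ} {S : ∀ i, Finset (HeightOneSpectrum (𝓞 (K i)))}
  {r : ∀ i, HeightOneSpectrum (𝓞 (K i)) → Fin (N i) → ℂ} {F : ι → ℂ → ℂ} {w : ι → ℝ}

theorem Q_pos (x : ℝ) : 0 < Q S r w x :=
  Finset.prod_pos fun _ _ => Real.rpow_pos_of_pos (star_pos x) _

theorem log_Q (x : ℝ) : Real.log (Q S r w x) =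
    ∑ i, w i * (-Pl (NS (S i)) (res (S i) (r i)) x) := by
  unfold Q
  rw [Real.log_prod fun i _ => (Real.rpow_pos_of_pos (star_pos x) _).ne']
  exact Finset.sum_congr rfl fun i _ => by rw [Real.log_rpow (star_pos x), log_star]

theorem lg {G₀ : ι → ℂ → ℂ} {p : ι → ℕ} {a : ι → ℝ → ℝ} {c : ι → ℝ}
    (R : Rep (fun i => NS (S i)) (fun i => res (S i) (r i)) G₀ p a c) :
    Lg (Q S r w) (comb w a) 0 where
  pos := Q_pos
  log := ⟨0, fun u _ => by
    rw [log_Q, add_zero]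
    unfold comb
    refine Finset.sum_congr rfl fun i _ => ?_
    rw [← R.pl i _ (Real.exp_pos u), Real.log_exp]⟩

theorem wt_eq (z : ℂ) : mult w (fun i s => F i (1 / 2 + s)) z = wt F w z := by
  unfold mult wt
  exact Finset.sum_congr rfl fun i _ => by rw [nat_shiftC]

theorem T_pos {e : ι → ℕ} {c : ι → ℂ} (hc : ∀ i, c i ≠ 0) : 0 < T e c w :=
  Finset.prod_pos fun i _ => Real.rpow_pos_of_pos
    (div_pos (Real.exp_pos _) (norm_pos_iff.2 (hc i))) _

theorem log_T {e : ι → ℕ} {c : ι → ℂ} (hc : ∀ i, c i ≠ 0) :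
    Real.log (T e c w) = KK w e (fun i => ‖c i‖) + 0 + 0 := by
  have h1 : ∀ i, 0 < Real.exp (Real.eulerMascheroniConstant * e i) / ‖c i‖ := fun i =>
    div_pos (Real.exp_pos _) (norm_pos_iff.2 (hc i))
  unfold T KK
  rw [Real.log_prod fun i _ => (Real.rpow_pos_of_pos (h1 i) _).ne', add_zero, add_zero]
  refine Finset.sum_congr rfl fun i _ => ?_
  rw [Real.log_rpow (h1 i), Real.log_div (Real.exp_pos _).ne' (norm_pos_iff.2 (hc i)).ne',
    Real.log_exp]
  ring

/-- **One asymptotic law for several representations.** -/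
theorem result {ι : Type} [Fintype ι] (K : ι → Type) [∀ i, Field (K i)] [∀ i, NumberField (K i)]
    (N : ι → ℕ) (S : ∀ i, Finset (HeightOneSpectrum (𝓞 (K i))))
    (r : ∀ i, HeightOneSpectrum (𝓞 (K i)) → Fin (N i) → ℂ) (hr : ∀ i, SelfDual (S i) (r i))
    (F : ι → ℂ → ℂ) (hF : ∀ i, IsLSeries (S i) (r i) (F i)) :
    ∃ (e : ι → ℕ) (c : ι → ℂ),
      (∀ i, analyticOrderAt (F i) (1 / 2) = e i ∧ IsLeading (F i) (e i) (c i)) ∧
      -- laws for arbitrary real weights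
      (∀ w : ι → ℝ,
        (∀ κ C : ℝ, C ≠ 0 → Tendsto (fun x : ℝ => Q S r w x / Real.log x ^ κ) atTop (𝓝 C) →
          κ = ∑ i, w i * e i ∧ C = T e c w ∧ ∀ z : ℂ, 0 < z.re → wt F w z = 0) ∧
        List.TFAE [
          ∃ C κ : ℝ, C ≠ 0 ∧ Tendsto (fun x : ℝ => Q S r w x / Real.log x ^ κ) atTop (𝓝 C),
          Tendsto (fun x : ℝ => Q S r w x / Real.log x ^ (∑ i, w i * e i)) atTop (𝓝 (T e c w)),
          (∀ x : ℝ, 0 < x → 0 ≤ wt F w x) ∧ SlowAbove (Q S r w),
          (∀ x : ℝ, 0 < x → wt F w x ≤ 0) ∧ SlowBelow (Q S r w)] ∧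
        List.TFAE [
          ∃ κ A B : ℝ, 0 < A ∧ ∀ᶠ x : ℝ in atTop,
            A * Real.log x ^ κ ≤ Q S r w x ∧ Q S r w x ≤ B * Real.log x ^ κ,
          ∃ A B : ℝ, 0 < A ∧ ∀ᶠ x : ℝ in atTop, A * Real.log x ^ (∑ i, w i * e i) ≤ Q S r w x ∧
            Q S r w x ≤ B * Real.log x ^ (∑ i, w i * e i),
          (∀ x : ℝ, 0 < x → 0 ≤ wt F w x) ∧ ∃ B : ℝ, ∀ᶠ x : ℝ in atTop, ∀ y, x ≤ y →
            y ≤ x ^ 2 → Q S r w y ≤ B * Q S r w x,
          (∀ x : ℝ, 0 < x → wt F w x ≤ 0) ∧ ∃ B : ℝ, ∀ᶠ x : ℝ in atTop, ∀ y, x ≤ y →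
            y ≤ x ^ 2 → Q S r w x ≤ B * Q S r w y] ∧
        ((∀ x : ℝ, 0 < x → 0 ≤ wt F w x) → ∀ κ C : ℝ,
          (∀ᶠ x : ℝ in atTop, Q S r w x ≤ C * Real.log x ^ κ) →
          (∀ z : ℂ, 0 < z.re → wt F w z = 0) ∧ ∑ i, w i * e i ≤ κ ∧
            (∑ i, w i * e i = κ → T e c w ≤ C))) ∧
      -- all central values from one law
      (∀ w : ι → ℝ, LinearIndependent ℚ w → ∀ C : ℝ, C ≠ 0 → Tendsto (Q S r w) atTop (𝓝 C) →
        ∀ i, F i (1 / 2) ≠ 0 ∧ (∀ s : ℂ, 1 / 2 < s.re → F i s ≠ 0) ∧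
          ∀ (V : Type) (per hom : Prop) (homv : V → Prop),
            (Equivalent per hom homv (F i (1 / 2) ≠ 0) ↔ (per ↔ hom) ∧ (per ↔ ∀ v, homv v))) ∧
      -- transfer of nonvanishing
      (∀ (w : ι → ℝ) (C : ℝ), C ≠ 0 → Tendsto (Q S r w) atTop (𝓝 C) → ∀ j, w j ≠ 0 →
        (∀ i, i ≠ j → w i ≠ 0 → F i (1 / 2) ≠ 0) →
        F j (1 / 2) ≠ 0 ∧ ∏ i, ‖F i (1 / 2)‖ ^ w i = C⁻¹) ∧
      -- two representations
      ∀ i j : ι, i ≠ j → ∀ C : ℝ, C ≠ 0 →
        Tendsto (fun x : ℝ => productStar (S i) (r i) x / productStar (S j) (r j) x) atTop (𝓝 C) →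
        (∀ z : ℂ, 0 < z.re ∨ z = 0 →
          analyticOrderNatAt (F i) (1 / 2 + z) = analyticOrderNatAt (F j) (1 / 2 + z)) ∧
        (F i (1 / 2) ≠ 0 ↔ F j (1 / 2) ≠ 0) ∧
        (F i (1 / 2) ≠ 0 → C = ‖F j (1 / 2)‖ / ‖F i (1 / 2)‖) ∧
        ∀ (V : Type) (per hom : Prop) (homv : V → Prop),
          (Equivalent per hom homv (F i (1 / 2) ≠ 0) ↔
            Equivalent per hom homv (F j (1 / 2) ≠ 0)) := by
  classical
  have H : ∀ i, Mh (NS (S i)) (res (S i) (r i)) (fun s => F i (1 / 2 + s)) 0 := fun i =>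
    mh (hr i) (hF i)
  choose e₀ g' e he₀ he Qd using fun i => (H i).hy
  have he' : ∀ i, analyticOrderAt (F i) (1 / 2) = e i := fun i =>
    (order_shiftC (hF i).centre (e i)).1 (he i)
  choose c hc using fun i => exists_leading (hF i).centre (he' i)
  have hc0 : ∀ i, c i ≠ 0 := fun i => (hc i).1
  obtain ⟨a, c', Rp⟩ := exists_rep H he
  have hcc : c' = fun i => ‖c i‖ := by
    funext i
    exact tendsto_nhds_unique (Rp.cen.lim i) (leading_real (hc i))
  subst hcc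
  have HN := rep_near Rp
  have zeros : ∀ w : ι → ℝ, (∀ s : ℂ, 0 < s.re → mult w (fun i s => F i (1 / 2 + s)) s = 0) →
      ∀ z : ℂ, 0 < z.re → wt F w z = 0 := fun w h z hz => by rw [← wt_eq]; exact h z hz
  have uniq : ∀ (w : ι → ℝ) (κ C : ℝ), C ≠ 0 →
      Tendsto (fun x : ℝ => Q S r w x / Real.log x ^ κ) atTop (𝓝 C) →
      κ = ∑ i, w i * e i ∧ C = T e c w ∧ ∀ z : ℂ, 0 < z.re → wt F w z = 0 := by
    intro w κ C hC h
    obtain ⟨h1, h2, h3⟩ := HN.unique cor_zero comb_zero_lim (lg Rp) (T_pos hc0) (log_T hc0) hC h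
    exact ⟨h1, h2, zeros w h3⟩
  have uniq0 : ∀ (w : ι → ℝ) (C : ℝ), C ≠ 0 → Tendsto (Q S r w) atTop (𝓝 C) →
      ∑ i, w i * (e i : ℝ) = 0 ∧ C = T e c w ∧ ∀ z : ℂ, 0 < z.re → wt F w z = 0 := by
    intro w C hC h
    obtain ⟨h1, h2⟩ := uniq w 0 C hC (h.congr fun x => by rw [Real.rpow_zero, div_one])
    exact ⟨h1.symm, h2⟩
  -- transfer
  have transfer : ∀ (w : ι → ℝ) (C : ℝ), C ≠ 0 → Tendsto (Q S r w) atTop (𝓝 C) → ∀ j, w j ≠ 0 →
        (∀ i, i ≠ j → w i ≠ 0 → F i (1 / 2) ≠ 0) →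
        F j (1 / 2) ≠ 0 ∧ ∏ i, ‖F i (1 / 2)‖ ^ w i = C⁻¹ := by
    intro w C hC h j hj hne
    obtain ⟨h1, h2, -⟩ := uniq0 w C hC h
    have h3 : e j = 0 := by
      rw [Finset.sum_eq_single j (fun i _ hi => by
          by_cases hwi : w i = 0
          · rw [hwi, zero_mul]
          · rw [(order_zero_iff (hF i).centre (he' i)).2 (hne i hi hwi), Nat.cast_zero, mul_zero])
        (fun h => absurd (Finset.mem_univ j) h)] at h1
      exact_mod_cast (mul_eq_zero.1 h1).resolve_left hj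
    have h4 : ∀ i, w i ≠ 0 → F i (1 / 2) ≠ 0 := by
      intro i hi
      by_cases hij : i = j
      · subst hij
        exact (order_zero_iff (hF i).centre (he' i)).1 h3
      · exact hne i hij hi
    refine ⟨h4 j hj, ?_⟩
    rw [h2]
    unfold T
    rw [← Finset.prod_inv_distrib]
    refine Finset.prod_congr rfl fun i _ => ?_
    by_cases hi : w i = 0
    · rw [hi, Real.rpow_zero, Real.rpow_zero, inv_one]
    · have h5 : e i = 0 := (order_zero_iff (hF i).centre (he' i)).2 (h4 i hi)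
      have h6 : c i = F i (1 / 2) := leading_zero (hF i).centre (by rw [← h5]; exact hc i)
      rw [h5, h6, Nat.cast_zero, mul_zero, Real.exp_zero,
        Real.div_rpow zero_le_one (norm_nonneg _), Real.one_rpow, one_div (‖_‖ ^ _), inv_inv]
  have equiv_iff : ∀ (V : Type) (per hom : Prop) (homv : V → Prop) (P P' : Prop), (P ↔ P') →
      (Equivalent per hom homv P ↔ Equivalent per hom homv P') := by
    intro V per hom homv P P' h
    unfold Equivalent
    rw [h]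
  refine ⟨e, c, fun i => ⟨he' i, hc i⟩, fun w => ⟨uniq w, ?_, ?_, ?_⟩, ?_, transfer, ?_⟩
  · have h := HN.lead (w := w) cor_zero comb_zero_lim (lg Rp) (T_pos hc0) (log_T hc0)
    simp only [wt_eq] at h
    exact_mod_cast h
  · have h := HN.order (w := w) (lg Rp)
    simp only [wt_eq] at h
    exact_mod_cast h
  · intro hs κ C h
    obtain ⟨h1, h2, h3⟩ := HN.upper (w := w) (lg Rp) (fun x hx => by
      rw [wt_eq]
      exact hs x hx) h
    exact ⟨zeros w h1, h2, fun h4 => h3 cor_zero comb_zero_lim (T_pos hc0) (log_T hc0) h4⟩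
  · intro w hw C hC h i
    obtain ⟨h1, -, h3⟩ := uniq0 w C hC h
    have h4 : (fun _ => 0 : ι → ℕ) = e := indep_nat hw (by
      show ∑ i, w i * ((0 : ℕ) : ℝ) = ∑ i, w i * (e i : ℝ)
      rw [h1]
      simp)
    have h5 : F i (1 / 2) ≠ 0 :=
      (order_zero_iff (hF i).centre (he' i)).1 (congrFun h4 i).symm
    refine ⟨h5, fun s hs => ?_, fun V per hom homv => ?_⟩
    · have h6 : 0 < (s - 1 / 2).re := by
        rw [Complex.sub_re]
        norm_num
        linarith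
      have h7 := indep_sys H he hw h6 (by rw [wt_eq]; exact h3 _ h6) i
      simpa only [add_sub_cancel] using h7
    · unfold Equivalent
      simp only [h5, ne_eq, not_false_eq_true, and_true]
  · intro i j hij C hC h
    set w : ι → ℝ := fun k => (if k = i then 1 else 0) - (if k = j then 1 else 0) with hw
    have hwi : w i = 1 := by simp [hw, hij]
    have hwj : w j = -1 := by simp [hw, hij.symm]
    have hw0 : ∀ k, k ≠ i → k ≠ j → w k = 0 := fun k h1 h2 => by simp [hw, h1, h2]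
    have hprod : ∀ g : ι → ℝ, ∏ k, g k ^ w k = g i / g j := by
      intro g
      rw [← Finset.mul_prod_erase _ _ (Finset.mem_univ i),
        ← Finset.mul_prod_erase _ _ (Finset.mem_erase.2 ⟨hij.symm, Finset.mem_univ j⟩), hwi, hwj,
        Real.rpow_one, Real.rpow_neg_one, Finset.prod_eq_one, mul_one, div_eq_mul_inv]
      intro k hk
      rw [Finset.mem_erase, Finset.mem_erase] at hk
      rw [hw0 k hk.2.1 hk.1, Real.rpow_zero]
    have hQ : Tendsto (Q S r w) atTop (𝓝 C) := by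
      refine h.congr fun x => ?_
      unfold Q
      rw [hprod (fun k => productStar (S k) (r k) x)]
    obtain ⟨h1, -, h3⟩ := uniq0 w C hC hQ
    have hsum : ∀ g : ι → ℝ, ∑ k, w k * g k = g i - g j := by
      intro g
      simp only [hw, sub_mul, ite_mul, one_mul, zero_mul, Finset.sum_sub_distrib,
        Finset.sum_ite_eq', Finset.mem_univ, if_true]
    have h4 : e i = e j := by
      rw [hsum (fun k => (e k : ℝ)), sub_eq_zero] at h1
      exact_mod_cast h1
    have h5 : F i (1 / 2) ≠ 0 ↔ F j (1 / 2) ≠ 0 := by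
      rw [← order_zero_iff (hF i).centre (he' i), ← order_zero_iff (hF j).centre (he' j), h4]
    refine ⟨fun z hz => ?_, h5, fun h6 => ?_, fun V per hom homv => equiv_iff _ _ _ _ _ _ h5⟩
    · rcases hz with hz | rfl
      · have h6 := h3 z hz
        unfold wt at h6
        rw [hsum (fun k => (analyticOrderNatAt (F k) (1 / 2 + z) : ℝ)), sub_eq_zero] at h6
        exact_mod_cast h6
      · rw [add_zero]
        unfold analyticOrderNatAt
        rw [he' i, he' j, h4]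
    · obtain ⟨-, h7⟩ := transfer w C hC hQ j (by rw [hwj]; norm_num) (fun k hk hwk => by
        have hki : k = i := by
          by_contra hki
          exact hwk (hw0 k hki hk)
        subst hki
        exact h6)
      rw [hprod (fun k => ‖F k (1 / 2)‖)] at h7
      rw [← inv_inv C, ← h7, inv_div]

end main

end Pool.Agent.Results.MP_86aa84_nt.SeveralRepresentations
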